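import Pool.Agent.H7.HZ.Stmts

set_option autoImplicit false

open Finset

namespace Pool.HZ7

open Pool.Agent.H23.KT Pool.Agent.H46.KW Pool.KQ Pool.GT7 Pool.GU7

private lemma spx_count {V : Type} [DecidableEq V] (W X U : Finset V)
    (S T : Finset (Finset V)) (m : ℕ) (hS : ∀ L ∈ S, L ⊆ W ∧ L.card = m + 1)
    (hT : ∀ L ∈ S, L ⊆ X → L ∈ T) (hcov : ∀ u ∈ W, u ∉ X → u ∈ U) :
    (S \ T).card ≤ U.card * W.card ^ m := by
  have hsub : S \ T ⊆ U.biUnion (fun z => (W.powersetCard m).image (insert z)) := by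
    intro L hL
    rw [mem_sdiff] at hL
    obtain ⟨hLW, hLc⟩ := hS L hL.1
    have hnot : ¬ L ⊆ X := fun h => hL.2 (hT L hL.1 h)
    obtain ⟨z, hzL, hzX⟩ := Finset.not_subset.1 hnot
    rw [mem_biUnion]
    refine ⟨z, hcov z (hLW hzL) hzX, ?_⟩
    rw [mem_image]
    refine ⟨L.erase z, ?_, insert_erase hzL⟩
    rw [mem_powersetCard]
    refine ⟨(erase_subset _ _).trans hLW, ?_⟩
    rw [card_erase_of_mem hzL, hLc]
    rfl
  refine (card_le_card hsub).trans ?_
  refine card_biUnion_le_card_mul _ _ _ fun z _ => ?_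
  refine card_image_le.trans ?_
  rw [card_powersetCard]
  exact Nat.choose_le_pow _ _

theorem spx_thm : SPXStmt := by
  intro V _ G p r a W P U hPar hdis hcov
  have hdU : Disjoint (un P) U := by
    unfold un
    rw [Finset.disjoint_biUnion_left]
    intro i _
    exact hdis i
  have hW : W = un P ∪ U := by
    ext u
    rw [hcov, mem_union]
    unfold un
    rw [mem_biUnion]
    constructor
    · rintro (h | ⟨i, hi⟩)
      · exact Or.inr h
      · exact Or.inl ⟨i, mem_univ _, hi⟩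
    · rintro (⟨i, -, hi⟩ | h)
      · exact Or.inr ⟨i, hi⟩
      · exact Or.inl h
  have hcard : (W.card : ℝ) = (un P).card + U.card := by
    rw [hW, card_union_of_disjoint hdU]
    push_cast
    rfl
  have hXX : ∀ L : Finset V, XX G p r a W L =
      ((((p + 3) * a + r : ℕ) : ℝ) - (un P).card) + mm G p r (un P) L -
        ∑ z ∈ U, ww p r (nb G L z).card := by
    intro L
    have hs : ∑ z ∈ W, gg p r ((nb G L z).card + 1) =
        ∑ z ∈ un P, gg p r ((nb G L z).card + 1) + ∑ z ∈ U, gg p r ((nb G L z).card + 1) := by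
      rw [hW, sum_union hdU]
    unfold XX mm ww
    rw [hs, hcard, sum_sub_distrib]
    simp only [sum_const, nsmul_eq_mul, mul_one]
    ring
  have hsub : clq G (un P) (p + 3) ⊆ clq G W (p + 3) := by
    intro L hL
    rw [mem_clq] at hL ⊢
    refine ⟨hL.1.trans ?_, hL.2⟩
    rw [hW]
    exact subset_union_left
  rw [← Finset.sum_sdiff hsub]
  have hA : ∑ L ∈ clq G (un P) (p + 3), min (r : ℝ) (XX G p r a W L) ≤
      ∑ L ∈ clq G (un P) (p + 3), (((((p + 3) * a + r : ℕ) : ℝ) - (un P).card) +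
        mm G p r (un P) L - ∑ z ∈ U, ww p r (nb G L z).card) :=
    sum_le_sum fun L _ => (min_le_right _ _).trans (hXX L).le
  have hcount : ((clq G W (p + 3)) \ (clq G (un P) (p + 3))).card ≤ U.card * W.card ^ (p + 2) := by
    refine spx_count W (un P) U _ _ (p + 2) ?_ ?_ ?_
    · intro L hL
      rw [mem_clq] at hL
      exact ⟨hL.1, hL.2.1⟩
    · intro L hL hX
      rw [mem_clq] at hL ⊢
      exact ⟨hX, hL.2⟩
    · intro u hu hX
      rw [hW, mem_union] at hu
      exact hu.resolve_left hX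
  have hB : ∑ L ∈ (clq G W (p + 3)) \ (clq G (un P) (p + 3)), min (r : ℝ) (XX G p r a W L) ≤
      (r : ℝ) * U.card * (W.card : ℝ) ^ (p + 2) := by
    calc ∑ L ∈ (clq G W (p + 3)) \ (clq G (un P) (p + 3)), min (r : ℝ) (XX G p r a W L)
        ≤ ∑ L ∈ (clq G W (p + 3)) \ (clq G (un P) (p + 3)), (r : ℝ) :=
          sum_le_sum fun L _ => min_le_left _ _
      _ = (((clq G W (p + 3)) \ (clq G (un P) (p + 3))).card : ℝ) * r := by
          rw [sum_const, nsmul_eq_mul]
      _ ≤ ((U.card * W.card ^ (p + 2) : ℕ) : ℝ) * r := by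
          gcongr
      _ = (r : ℝ) * U.card * (W.card : ℝ) ^ (p + 2) := by
          push_cast
          ring
  linarith

end Pool.HZ7
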